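import Pool.Agent.H487.GP.Stm

set_option autoImplicit false

namespace Pool.Agent.H25.GP.FRU

open MeasureTheory Set Filter Topology

theorem exp_int : IntegrableOn (fun x : ℝ => Real.exp (-(2 * x))) (Ioi 0) := by
  have h := integrableOn_exp_mul_Ioi (a := -2) (by norm_num) 0
  refine h.congr_fun (fun x _ => ?_) measurableSet_Ioi
  simp only []
  congr 1
  ring

theorem one_sub_cos_le (t : ℝ) : |1 - Real.cos t| ≤ |t| := by
  have h1 : 0 ≤ 1 - Real.cos t := by linarith [Real.cos_le_one t]
  rw [abs_of_nonneg h1]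
  rcases le_or_gt |t| 2 with h | h
  · have h2 := Real.one_sub_sq_div_two_le_cos (x := t)
    have h3 : t ^ 2 = |t| ^ 2 := (sq_abs t).symm
    nlinarith [abs_nonneg t]
  · linarith [Real.neg_one_le_cos t]

theorem bound (v x : ℝ) (hx : 0 < x) :
    ‖Real.exp (-(2 * x)) * (2 - 2 * Real.cos (v * x)) / x‖ ≤ 2 * |v| * Real.exp (-(2 * x)) := by
  rw [norm_div, norm_mul, Real.norm_eq_abs, Real.norm_eq_abs, Real.norm_eq_abs, abs_of_pos hx,
    abs_of_pos (Real.exp_pos _), div_le_iff₀ hx]
  have h := one_sub_cos_le (v * x)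
  rw [abs_mul, abs_of_pos hx] at h
  have h2 : |2 - 2 * Real.cos (v * x)| = 2 * |1 - Real.cos (v * x)| := by
    rw [← abs_two, ← abs_mul, abs_two]; congr 1; ring
  rw [h2]
  have he := Real.exp_pos (-(2 * x))
  nlinarith [mul_le_mul_of_nonneg_left h he.le]

theorem meas (v : ℝ) : AEStronglyMeasurable
    (fun x : ℝ => Real.exp (-(2 * x)) * (2 - 2 * Real.cos (v * x)) / x) (volume.restrict (Ioi 0)) := by
  refine Measurable.aestronglyMeasurable ?_
  fun_prop

theorem integ (v : ℝ) : IntegrableOn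
    (fun x : ℝ => Real.exp (-(2 * x)) * (2 - 2 * Real.cos (v * x)) / x) (Ioi 0) := by
  refine Integrable.mono' (exp_int.const_mul (2 * |v|)) (meas v) ?_
  rw [ae_restrict_iff' measurableSet_Ioi]
  exact Eventually.of_forall fun x hx => bound v x hx

theorem sin_int (v : ℝ) : ∫ x in Ioi (0 : ℝ), Real.exp (-(2 * x)) * Real.sin (v * x) = v / (4 + v ^ 2) := by
  have hpos : (0 : ℝ) < 4 + v ^ 2 := by positivity
  have hd : ∀ x ∈ Ici (0 : ℝ), HasDerivAt
      (fun x : ℝ => -(Real.exp (-(2 * x)) * (2 * Real.sin (v * x) + v * Real.cos (v * x))) / (4 + v ^ 2))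
      (Real.exp (-(2 * x)) * Real.sin (v * x)) x := by
    intro x _
    have e1 : HasDerivAt (fun x : ℝ => Real.exp (-(2 * x))) (Real.exp (-(2 * x)) * (-(2 * 1))) x :=
      (((hasDerivAt_id x).const_mul 2).neg).exp
    have e2 : HasDerivAt (fun x : ℝ => Real.sin (v * x)) (Real.cos (v * x) * (v * 1)) x :=
      ((hasDerivAt_id x).const_mul v).sin
    have e3 : HasDerivAt (fun x : ℝ => Real.cos (v * x)) (-Real.sin (v * x) * (v * 1)) x :=
      ((hasDerivAt_id x).const_mul v).cos
    have e4 := ((e1.mul ((e2.const_mul 2).add (e3.const_mul v))).neg).div_const (4 + v ^ 2)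
    refine e4.congr_deriv ?_
    rw [Pi.add_apply]
    field_simp
    ring
  have ht : Tendsto (fun x : ℝ => -(Real.exp (-(2 * x)) * (2 * Real.sin (v * x) + v * Real.cos (v * x))) / (4 + v ^ 2))
      atTop (𝓝 0) := by
    have h1 : Tendsto (fun x : ℝ => Real.exp (-(2 * x)) * (2 * Real.sin (v * x) + v * Real.cos (v * x))) atTop (𝓝 0) := by
      have h2 : Tendsto (fun x : ℝ => Real.exp (-(2 * x)) * (2 + |v|)) atTop (𝓝 0) := by
        have h3 : Tendsto (fun x : ℝ => Real.exp (-(2 * x))) atTop (𝓝 0) := by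
          refine Real.tendsto_exp_neg_atTop_nhds_zero.comp ?_
          exact tendsto_id.const_mul_atTop (by norm_num : (0 : ℝ) < 2)
        simpa using h3.mul_const (2 + |v|)
      refine squeeze_zero_norm (fun x => ?_) h2
      rw [norm_mul, Real.norm_eq_abs, Real.norm_eq_abs, abs_of_pos (Real.exp_pos _)]
      refine mul_le_mul_of_nonneg_left ?_ (Real.exp_pos _).le
      refine (abs_add_le _ _).trans ?_
      rw [abs_mul, abs_mul, abs_two]
      have s1 := Real.abs_sin_le_one (v * x)
      have s2 := Real.abs_cos_le_one (v * x)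
      nlinarith [abs_nonneg v]
    simpa using (h1.neg).div_const (4 + v ^ 2)
  have hi : IntegrableOn (fun x : ℝ => Real.exp (-(2 * x)) * Real.sin (v * x)) (Ioi 0) := by
    refine Integrable.mono' exp_int (Measurable.aestronglyMeasurable (by fun_prop)) ?_
    refine Eventually.of_forall fun x => ?_
    rw [norm_mul, Real.norm_eq_abs, Real.norm_eq_abs, abs_of_pos (Real.exp_pos _)]
    nlinarith [Real.abs_sin_le_one (v * x), Real.exp_pos (-(2 * x))]
  rw [integral_Ioi_of_hasDerivAt_of_tendsto' hd hi ht]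
  simp
  ring

theorem deriv_G (v : ℝ) : HasDerivAt
    (fun v : ℝ => ∫ x in Ioi (0 : ℝ), Real.exp (-(2 * x)) * (2 - 2 * Real.cos (v * x)) / x)
    (2 * v / (4 + v ^ 2)) v := by
  have h := hasDerivAt_integral_of_dominated_loc_of_deriv_le
    (μ := volume.restrict (Ioi (0 : ℝ)))
    (F := fun v x : ℝ => Real.exp (-(2 * x)) * (2 - 2 * Real.cos (v * x)) / x)
    (F' := fun v x : ℝ => 2 * (Real.exp (-(2 * x)) * Real.sin (v * x)))
    (x₀ := v) (s := univ) (bound := fun x => 2 * Real.exp (-(2 * x)))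
    univ_mem
    (Eventually.of_forall fun v => meas v)
    (integ v)
    (Measurable.aestronglyMeasurable (by fun_prop))
    (Eventually.of_forall fun x w _ => by
      rw [norm_mul, norm_mul, Real.norm_eq_abs, Real.norm_eq_abs, Real.norm_eq_abs, abs_two,
        abs_of_pos (Real.exp_pos _)]
      nlinarith [Real.abs_sin_le_one (w * x), Real.exp_pos (-(2 * x))])
    (exp_int.const_mul 2)
    (by
      rw [ae_restrict_iff' measurableSet_Ioi]
      refine Eventually.of_forall fun x hx w _ => ?_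
      have hx' : (x : ℝ) ≠ 0 := ne_of_gt hx
      have e3 : HasDerivAt (fun w : ℝ => Real.cos (w * x)) (-Real.sin (w * x) * (1 * x)) w :=
        ((hasDerivAt_id w).mul_const x).cos
      have e4 := (((e3.const_mul 2).const_sub 2).const_mul (Real.exp (-(2 * x)))).div_const x
      refine e4.congr_deriv ?_
      field_simp)
  have h2 := h.2
  rw [integral_const_mul, sin_int] at h2
  refine h2.congr_deriv ?_
  ring

theorem fru : ∀ v : ℝ, IntegrableOn (fun x : ℝ => Real.exp (-(2 * x)) * (2 - 2 * Real.cos (v * x)) / x) (Ioi 0) ∧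
  ∫ x in Ioi (0 : ℝ), Real.exp (-(2 * x)) * (2 - 2 * Real.cos (v * x)) / x = Real.log (1 + v ^ 2 / 4) := by
  intro v
  refine ⟨integ v, ?_⟩
  have hL : ∀ w : ℝ, HasDerivAt (fun w : ℝ => Real.log (1 + w ^ 2 / 4)) (2 * w / (4 + w ^ 2)) w := by
    intro w
    have hp : (1 : ℝ) + w ^ 2 / 4 ≠ 0 := by positivity
    have e1 : HasDerivAt (fun w : ℝ => 1 + w ^ 2 / 4) ((2 * w) / 4) w := by
      have := (((hasDerivAt_id w).pow 2).div_const 4).const_add 1
      simpa using this
    have e2 := e1.log hp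
    convert e2 using 1
    have : (4 : ℝ) + w ^ 2 ≠ 0 := by positivity
    field_simp
  have hconst : ∀ w : ℝ, HasDerivAt (fun v : ℝ =>
      (∫ x in Ioi (0 : ℝ), Real.exp (-(2 * x)) * (2 - 2 * Real.cos (v * x)) / x)
        - Real.log (1 + v ^ 2 / 4)) 0 w := by
    intro w
    have := (deriv_G w).sub (hL w)
    rw [sub_self] at this
    exact this
  have heq := is_const_of_deriv_eq_zero (fun w => (hconst w).differentiableAt)
    (fun w => (hconst w).deriv) v 0
  simp at heq
  linarith

/-- **S_FRU** -/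
theorem fru_proof : Pool.Agent.H487.GP.S_FRU := fru

end Pool.Agent.H25.GP.FRU
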